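import Pool.Agent.K4H93.BSD.Defs
import Pool.Agent.H643R2.BX.Syn

/-! # Embedding into a maximal code: the abstract construction -/

namespace Pool.Agent.K4H93.BSD

open Pool.Agent.H643R2.BX
open scoped Computability

variable {α : Type}

/-- products of at least `n` words of `X` -/
def KL (X : Language α) (n : ℕ) (w : List α) : Prop :=
  ∃ l : List (List α), w = l.flatten ∧ (∀ y ∈ l, y ∈ X) ∧ n ≤ l.length

section basic

variable {X : Language α} {n m : ℕ} {x y : List α}

theorem KL.star (h : KL X n x) : x ∈ X∗ := by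
  obtain ⟨l, rfl, h1, _⟩ := h
  exact Language.join_mem_kstar h1

theorem KL.of_star (h : x ∈ X∗) : KL X 0 x := by
  rw [Language.mem_kstar] at h
  obtain ⟨l, hl, h1⟩ := h
  exact ⟨l, hl, h1, Nat.zero_le _⟩

theorem KL.append (h : KL X n x) (h' : KL X m y) : KL X (n + m) (x ++ y) := by
  obtain ⟨l, rfl, h1, h2⟩ := h
  obtain ⟨l', rfl, h1', h2'⟩ := h'
  refine ⟨l ++ l', by simp, ?_, by simp; omega⟩
  intro z hz
  rcases List.mem_append.1 hz with hz | hz
  · exact h1 z hz
  · exact h1' z hz

theorem KL.mono (h : KL X n x) (hmn : m ≤ n) : KL X m x := by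
  obtain ⟨l, rfl, h1, h2⟩ := h
  exact ⟨l, rfl, h1, hmn.trans h2⟩

theorem KL.split (h : KL X (n + m) x) : ∃ a b, x = a ++ b ∧ KL X n a ∧ KL X m b := by
  obtain ⟨l, rfl, h1, h2⟩ := h
  refine ⟨(l.take n).flatten, (l.drop n).flatten, ?_, ⟨l.take n, rfl, ?_, ?_⟩,
    ⟨l.drop n, rfl, ?_, ?_⟩⟩
  · rw [← List.flatten_append, List.take_append_drop]
  · intro y hy
    exact h1 y (List.mem_of_mem_take hy)
  · rw [List.length_take]; omega
  · intro y hy
    exact h1 y (List.mem_of_mem_drop hy)
  · rw [List.length_drop]; omega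

theorem KL.ne_nil (h0 : [] ∉ X) (h : KL X n x) (hn : 0 < n) : x ≠ [] := by
  obtain ⟨l, rfl, h1, h2⟩ := h
  cases l with
  | nil => simp at h2; omega
  | cons a l =>
    intro h
    rw [List.flatten_cons] at h
    exact h0 ((List.append_eq_nil_iff.1 h).1 ▸ h1 a (by simp))

theorem KL.star_append {u v : List α} (hu : u ∈ X∗) (hv : KL X n v) : KL X n (u ++ v) := by
  have := (KL.of_star hu).append hv
  rwa [Nat.zero_add] at this

theorem KL.append_star {u v : List α} (hu : KL X n u) (hv : v ∈ X∗) : KL X n (u ++ v) := by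
  have := hu.append (KL.of_star hv)
  rwa [Nat.add_zero] at this

theorem KL.exists (hX : ∃ x, x ∈ X) (n : ℕ) : ∃ w, KL X n w := by
  obtain ⟨x, hx⟩ := hX
  refine ⟨(List.replicate n x).flatten, List.replicate n x, rfl, ?_, by simp⟩
  intro y hy
  rw [List.mem_replicate] at hy
  rw [hy.2]; exact hx

theorem KL.iff : KL X n x ↔ ∃ a b, a ∈ X ^ n ∧ b ∈ X∗ ∧ x = a ++ b := by
  constructor
  · rintro ⟨l, rfl, h1, h2⟩
    refine ⟨(l.take n).flatten, (l.drop n).flatten, ?_, ?_, ?_⟩
    · rw [Language.mem_pow]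
      refine ⟨l.take n, rfl, ?_, ?_⟩
      · rw [List.length_take]; omega
      · intro y hy
        exact h1 y (List.mem_of_mem_take hy)
    · apply Language.join_mem_kstar
      intro y hy
      exact h1 y (List.mem_of_mem_drop hy)
    · rw [← List.flatten_append, List.take_append_drop]
  · rintro ⟨a, b, ha, hb, rfl⟩
    rw [Language.mem_pow] at ha
    obtain ⟨l, rfl, h1, h2⟩ := ha
    apply KL.append_star _ hb
    exact ⟨l, rfl, h2, h1.ge⟩

theorem KL.iff' : KL X n x ↔ ∃ a b, a ∈ X∗ ∧ b ∈ X ^ n ∧ x = a ++ b := by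
  constructor
  · rintro ⟨l, rfl, h1, h2⟩
    refine ⟨(l.take (l.length - n)).flatten, (l.drop (l.length - n)).flatten, ?_, ?_, ?_⟩
    · apply Language.join_mem_kstar
      intro y hy
      exact h1 y (List.mem_of_mem_take hy)
    · rw [Language.mem_pow]
      refine ⟨l.drop (l.length - n), rfl, ?_, ?_⟩
      · rw [List.length_drop]; omega
      · intro y hy
        exact h1 y (List.mem_of_mem_drop hy)
    · rw [← List.flatten_append, List.take_append_drop]
  · rintro ⟨a, b, ha, hb, rfl⟩
    rw [Language.mem_pow] at hb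
    obtain ⟨l, rfl, h1, h2⟩ := hb
    apply KL.star_append ha
    exact ⟨l, rfl, h2, h1.ge⟩

theorem mem_pow_KL {a : List α} (ha : a ∈ X ^ n) : KL X n a := by
  rw [Language.mem_pow] at ha
  obtain ⟨l, rfl, h1, h2⟩ := ha
  exact ⟨l, rfl, h2, h1.ge⟩

end basic

section code

variable {X : Language α}

theorem star_of_prod {l : List (List α)} (h : ∀ y ∈ l, y ∈ X) : l.flatten ∈ X∗ :=
  Language.join_mem_kstar h

/-- if `a b = c e` with all four in the submonoid and `c = a f` then `f` is in the submonoid -/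
theorem IsCode.unitary (hX : IsCode X) {a f e : List α} (ha : a ∈ X∗) (hc : a ++ f ∈ X∗)
    (hb : f ++ e ∈ X∗) (he : e ∈ X∗) : f ∈ X∗ := by
  have ha' := ha
  have hc' := hc
  have hb' := hb
  have he' := he
  rw [Language.mem_kstar] at ha' hc' hb' he'
  obtain ⟨la, ea, ma⟩ := ha'
  obtain ⟨lc, ec, mc⟩ := hc'
  obtain ⟨lb, eb, mb⟩ := hb'
  obtain ⟨le, ee, me⟩ := he'
  have h1 : (la ++ lb).flatten = (lc ++ le).flatten := by
    rw [List.flatten_append, List.flatten_append, ← ea, ← ec, ← eb, ← ee, List.append_assoc]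
  have h2 := hX.2 _ _ (by
    intro w hw
    rcases List.mem_append.1 hw with hw | hw
    · exact ma w hw
    · exact mb w hw) (by
    intro w hw
    rcases List.mem_append.1 hw with hw | hw
    · exact mc w hw
    · exact me w hw) h1
  rcases List.append_eq_append_iff.1 h2 with ⟨k, hk1, hk2⟩ | ⟨k, hk1, hk2⟩
  · -- lc = la ++ k
    have h3 : a ++ f = a ++ k.flatten := by
      rw [ec, hk1, List.flatten_append, ← ea]
    have h4 : f = k.flatten := List.append_cancel_left h3
    rw [h4]
    apply star_of_prod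
    intro y hy
    exact mc y (by rw [hk1]; exact List.mem_append_right _ hy)
  · -- la = lc ++ k
    have h3 : a = (a ++ f) ++ k.flatten := by
      conv_lhs => rw [ea, hk1, List.flatten_append, ← ec]
    have h4 : f = [] := by
      have := congrArg List.length h3
      simp only [List.length_append] at this
      apply List.eq_nil_of_length_eq_zero
      omega
    rw [h4]
    exact Language.nil_mem_kstar _

/-- a word of a code is not a product of two nonempty words of the submonoid -/
theorem IsCode.irred (hX : IsCode X) {u v : List α} (hu : u ∈ X∗) (hv : v ∈ X∗) (hu0 : u ≠ [])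
    (hv0 : v ≠ []) : u ++ v ∉ X := by
  intro h
  rw [Language.mem_kstar] at hu hv
  obtain ⟨lu, eu, mu⟩ := hu
  obtain ⟨lv, ev, mv⟩ := hv
  have h1 : [u ++ v].flatten = (lu ++ lv).flatten := by
    rw [List.flatten_append, ← eu, ← ev]; simp
  have h2 := hX.2 _ _ (by simpa using h) (by
    intro w hw
    rcases List.mem_append.1 hw with hw | hw
    · exact mu w hw
    · exact mv w hw) h1
  have h3 : lu ≠ [] := by
    rintro rfl
    exact hu0 (by simpa using eu)
  have h4 : lv ≠ [] := by
    rintro rfl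
    exact hv0 (by simpa using ev)
  have h5 := congrArg List.length h2
  have h6 : 0 < lu.length := List.length_pos_iff.2 h3
  have h7 : 0 < lv.length := List.length_pos_iff.2 h4
  simp only [List.length_append, List.length_cons, List.length_nil] at h5
  omega

end code

/-- the data of the construction -/
structure Frame (X G : Language α) (d : ℕ) : Prop where
  code : IsCode X
  sync : ∀ x y u v, KL X d x → KL X d y → u ++ (x ++ (y ++ v)) ∈ X∗ → u ++ x ∈ X∗
  pos : ∃ x, x ∈ X
  sub : ∀ g, g ∈ G → g ∈ X∗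
  ne : ∃ g, g ∈ G
  mul : ∀ x g, x ∈ X∗ → g ∈ G → x ++ g ∈ G
  g1 : ∀ z l s, l ∈ G → z ++ (l ++ s) ∈ X∗ → l ++ s ∈ X∗
  g2 : ∀ w l s, l ∈ G → w ++ (l ++ s) ∈ X∗ → ∃ l0, KL X d l0 ∧ w ++ l0 ∈ X∗
  g3 : ∀ l s, l ∈ G → l ++ s ∉ X

/-- words with a beginning in `G` -/
def Hd (G : Language α) (w : List α) : Prop := ∃ g s, g ∈ G ∧ w = g ++ s

/-- words with an end in `X ^ (2 d)` -/
def Tl (X : Language α) (d : ℕ) (w : List α) : Prop := ∃ a t, KL X (d + d) t ∧ w = a ++ t

/-- the submonoid of the construction -/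
def MM (X G : Language α) (d : ℕ) (w : List α) : Prop := w ∈ X∗ ∨ (Hd G w ∧ Tl X d w)

/-- the code of the construction -/
def YY (X G : Language α) (d : ℕ) : Language α :=
  {w | MM X G d w ∧ w ≠ [] ∧ ∀ u v, MM X G d u → MM X G d v → u ≠ [] → v ≠ [] → w ≠ u ++ v}

namespace Frame

variable {X G : Language α} {d : ℕ}

theorem mm_nil : MM X G d [] := Or.inl (Language.nil_mem_kstar _)

theorem hd_left (F : Frame X G d) {u v : List α} (hu : MM X G d u) (hv : Hd G v) :
    Hd G (u ++ v) := by
  rcases hu with hu | ⟨⟨g, s, hg, rfl⟩, _⟩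
  · obtain ⟨g, s, hg, rfl⟩ := hv
    exact ⟨u ++ g, s, F.mul _ _ hu hg, by rw [List.append_assoc]⟩
  · exact ⟨g, s ++ v, hg, by rw [List.append_assoc]⟩

theorem tl_right {u v : List α} (hv : MM X G d v) (hu : Tl X d u) :
    Tl X d (u ++ v) := by
  rcases hv with hv | ⟨_, ⟨a, t, ht, rfl⟩⟩
  · obtain ⟨a, t, ht, rfl⟩ := hu
    exact ⟨a, t ++ v, ht.append_star hv, by rw [List.append_assoc]⟩
  · exact ⟨u ++ a, t, ht, by rw [List.append_assoc]⟩

theorem mm_append (F : Frame X G d) {u v : List α} (hu : MM X G d u) (hv : MM X G d v) :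
    MM X G d (u ++ v) := by
  rcases hu with hu | hu
  · rcases hv with hv | hv
    · exact Or.inl (star_append hu hv)
    · right
      refine ⟨F.hd_left (Or.inl hu) hv.1, ?_⟩
      obtain ⟨a, t, ht, rfl⟩ := hv.2
      exact ⟨u ++ a, t, ht, by rw [List.append_assoc]⟩
  · right
    refine ⟨?_, tl_right hv hu.2⟩
    obtain ⟨g, s, hg, rfl⟩ := hu.1
    exact ⟨g, s ++ v, hg, by rw [List.append_assoc]⟩

theorem mm_flatten (F : Frame X G d) {l : List (List α)} (h : ∀ y ∈ l, MM X G d y) :
    MM X G d l.flatten := by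
  induction l with
  | nil => exact mm_nil
  | cons a l ih =>
    rw [List.flatten_cons]
    exact F.mm_append (h a (by simp)) (ih fun y hy => h y (by simp [hy]))

theorem star_iff (F : Frame X G d) {w : List α} : w ∈ (YY X G d)∗ ↔ MM X G d w := by
  constructor
  · intro h
    rw [Language.mem_kstar] at h
    obtain ⟨l, rfl, hl⟩ := h
    exact F.mm_flatten fun y hy => (hl y hy).1
  · suffices H : ∀ n : ℕ, ∀ w : List α, w.length ≤ n → MM X G d w → w ∈ (YY X G d)∗ from
      H w.length w le_rfl
    intro n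
    induction n with
    | zero =>
      intro w hw _
      have : w = [] := List.eq_nil_of_length_eq_zero (by omega)
      rw [this]; exact Language.nil_mem_kstar _
    | succ n ih =>
      intro w hw hM
      by_cases h0 : w = []
      · rw [h0]; exact Language.nil_mem_kstar _
      · by_cases hY : w ∈ YY X G d
        · exact star_base hY
        · have : ¬ (∀ u v, MM X G d u → MM X G d v → u ≠ [] → v ≠ [] → w ≠ u ++ v) :=
            fun h => hY ⟨hM, h0, h⟩
          push Not at this
          obtain ⟨u, v, hu, hv, hu0, hv0, rfl⟩ := this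
          have h1 : 0 < u.length := List.length_pos_iff.2 hu0
          have h2 : 0 < v.length := List.length_pos_iff.2 hv0
          rw [List.length_append] at hw
          exact star_append (ih u (by omega) hu) (ih v (by omega) hv)

theorem sub_YY (F : Frame X G d) {x : List α} (hx : x ∈ X) : x ∈ YY X G d := by
  refine ⟨Or.inl (star_base hx), ?_, ?_⟩
  · rintro rfl; exact F.code.1 hx
  · rintro u v hu hv hu0 hv0 rfl
    rcases hu with hu | ⟨⟨g, s, hg, rfl⟩, _⟩
    · rcases hv with hv | ⟨⟨g, s, hg, rfl⟩, _⟩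
      · exact F.code.irred hu hv hu0 hv0 hx
      · exact F.code.irred hu (F.g1 _ _ _ hg (star_base hx)) hu0 hv0 hx
    · rw [List.append_assoc] at hx
      exact F.g3 _ _ hg hx

end Frame

end Pool.Agent.K4H93.BSD
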