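import Mathlib

/-! # Codes, maximal codes, complete sets and synchronization delay -/

namespace Pool.Agent.K4H93.BSD

variable {α : Type}

/-- `X` is a code: it does not contain the empty word and every word has at most one
factorization as a product of elements of `X`. -/
def IsCode (X : Language α) : Prop :=
  [] ∉ X ∧ ∀ l l' : List (List α), (∀ w ∈ l, w ∈ X) → (∀ w ∈ l', w ∈ X) →
    l.flatten = l'.flatten → l = l'

/-- `X` is a maximal code: a code that is not properly contained in any other code. -/
def IsMaximalCode (X : Language α) : Prop :=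
  IsCode X ∧ ∀ Z : Language α, IsCode Z → (∀ w, w ∈ X → w ∈ Z) → Z = X

/-- `X` is complete: every word is a factor of some word of the submonoid generated by `X`. -/
def IsComplete (X : Language α) : Prop :=
  ∀ w : List α, ∃ u v : List α, u ++ w ++ v ∈ KStar.kstar X

/-- `X` has (one-sided) synchronization delay `d`: for all `x, y` in `X ^ d` and all words `u, v`,
if `u x y v` lies in the submonoid generated by `X` then so does `u x`. -/
def SyncDelay (X : Language α) (d : ℕ) : Prop :=
  ∀ x ∈ X ^ d, ∀ y ∈ X ^ d, ∀ u v : List α,
    u ++ x ++ y ++ v ∈ KStar.kstar X → u ++ x ∈ KStar.kstar X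

/-- `X` has two-sided synchronization delay `d`: for all `x, y` in `X ^ d` and all words `u, v`,
if `u x y v` lies in the submonoid generated by `X` then so do `u x` and `y v`. -/
def SyncDelayTwo (X : Language α) (d : ℕ) : Prop :=
  ∀ x ∈ X ^ d, ∀ y ∈ X ^ d, ∀ u v : List α,
    u ++ x ++ y ++ v ∈ KStar.kstar X → u ++ x ∈ KStar.kstar X ∧ y ++ v ∈ KStar.kstar X

end Pool.Agent.K4H93.BSD
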