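import Pool.Agent.K4H93.BSD.Core

/-! # Stability of the submonoid of the construction -/

namespace Pool.Agent.K4H93.BSD

open Pool.Agent.H643R2.BX
open scoped Computability

variable {α : Type}

namespace Frame

variable {X G : Language α} {d : ℕ}

/-- the heart of the matter -/
theorem stab_core (F : Frame X G d) {a r w α' t l v g s : List α}
    (hr : KL X (d + d) r) (ht : KL X (d + d) t) (hl : l ∈ G) (hg : g ∈ G)
    (e1 : a ++ (r ++ w) = α' ++ t) (e2 : w ++ (l ++ v) = g ++ s) : MM X G d w := by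
  by_cases hlen : t.length ≤ w.length
  · -- `t` is an end of `w`
    have e3 : (a ++ r) ++ w = α' ++ t := by rw [List.append_assoc]; exact e1
    obtain ⟨w1, hw1⟩ : ∃ w1, w = w1 ++ t := by
      rcases List.append_eq_append_iff.1 e3 with ⟨k, hk1, hk2⟩ | ⟨k, hk1, hk2⟩
      · exact ⟨k, hk2⟩
      · -- a ++ r = α' ++ k, t = k ++ w
        have := congrArg List.length hk2
        rw [List.length_append] at this
        have hk : k = [] := List.eq_nil_of_length_eq_zero (by omega)
        exact ⟨[], by rw [hk2, hk]; rfl⟩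
    rcases List.append_eq_append_iff.1 e2 with ⟨k, hk1, hk2⟩ | ⟨k, hk1, hk2⟩
    · -- g = w ++ k
      left
      obtain ⟨t', t'', rfl, ht', ht''⟩ := ht.split
      have h1 : w1 ++ (t' ++ (t'' ++ k)) ∈ X∗ := by
        have := F.sub g hg
        rw [hk1, hw1] at this
        simpa only [List.append_assoc] using this
      have h2 := F.sync _ _ _ _ ht' ht'' h1
      rw [hw1, ← List.append_assoc]
      exact star_append h2 ht''.star
    · -- w = g ++ k
      right
      exact ⟨⟨g, k, hg, hk1⟩, ⟨w1, t, ht, hw1⟩⟩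
  · push Not at hlen
    left
    -- t = r0 ++ w
    have e3 : (a ++ r) ++ w = α' ++ t := by rw [List.append_assoc]; exact e1
    obtain ⟨r0, hr0⟩ : ∃ r0, t = r0 ++ w := by
      rcases List.append_eq_append_iff.1 e3 with ⟨k, hk1, hk2⟩ | ⟨k, hk1, hk2⟩
      · have := congrArg List.length hk2
        rw [List.length_append] at this
        omega
      · exact ⟨k, hk2⟩
    -- right step
    obtain ⟨l0, hl0, hwl0⟩ : ∃ l0, KL X d l0 ∧ w ++ l0 ∈ X∗ := by
      rw [← List.append_assoc] at e2
      rcases List.append_eq_append_iff.1 e2 with ⟨k, hk1, hk2⟩ | ⟨k, hk1, hk2⟩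
      · -- g = (w ++ l) ++ k
        apply F.g2 w l k hl
        rw [← List.append_assoc, ← hk1]
        exact F.sub g hg
      · -- w ++ l = g ++ k
        apply F.g2 w l [] hl
        rw [List.append_nil, hk1]
        apply F.g1 r0 g k hg
        rw [← hk1, ← List.append_assoc, ← hr0]
        exact star_append ht.star (F.sub l hl)
    -- left step
    obtain ⟨ρ, hρ, hρw⟩ : ∃ ρ, ρ ∈ X∗ ∧ ρ ++ w ∈ X∗ := by
      rcases List.append_eq_append_iff.1 e1 with ⟨k, hk1, hk2⟩ | ⟨k, hk1, hk2⟩
      · -- α' = a ++ k, r ++ w = k ++ t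
        refine ⟨r, hr.star, ?_⟩
        have h1 : k ++ (t ++ (l0 ++ [])) ∈ X∗ := by
          rw [List.append_nil, ← List.append_assoc, ← hk2, List.append_assoc]
          exact star_append hr.star hwl0
        have h2 := F.sync _ _ _ _ (ht.mono (by omega)) hl0 h1
        rw [hk2]; exact h2
      · -- a = α' ++ k, t = k ++ (r ++ w)
        obtain ⟨r', r'', rfl, hr', hr''⟩ := hr.split
        refine ⟨r'', hr''.star, ?_⟩
        have h1 : k ++ (r' ++ (r'' ++ w)) ∈ X∗ := by
          rw [← List.append_assoc r' r'' w, ← hk2]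
          exact ht.star
        have h2 := F.sync _ _ _ _ hr' hr'' h1
        refine F.code.unitary (a := k ++ r') (e := l0) h2 ?_ ?_ hl0.star
        · rw [List.append_assoc]; exact h1
        · rw [List.append_assoc]
          exact star_append hr''.star hwl0
    exact F.code.unitary hρ hρw hwl0 hl0.star

theorem stab (F : Frame X G d) {u v w : List α} (hu : MM X G d u) (hv : MM X G d v)
    (huw : MM X G d (u ++ w)) (hwv : MM X G d (w ++ v)) : MM X G d w := by
  obtain ⟨x0, hx0⟩ := KL.exists F.pos (d + d)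
  obtain ⟨g0, hg0⟩ := F.ne
  have key1 : ∀ z, MM X G d z → Tl X d (x0 ++ z) := by
    intro z hz
    exact tl_right hz ⟨[], x0, hx0, rfl⟩
  have key2 : ∀ z, MM X G d z → Hd G (z ++ g0) := by
    intro z hz
    exact F.hd_left hz ⟨g0, [], hg0, by rw [List.append_nil]⟩
  obtain ⟨a, r, hr, e1⟩ := key1 u hu
  obtain ⟨α', t, ht, e2⟩ := key1 _ huw
  obtain ⟨l, v', hl, e3⟩ := key2 v hv
  obtain ⟨g, s, hg, e4⟩ := key2 _ hwv
  refine F.stab_core (a := a) (r := r) (w := w) (α' := α') (t := t) (l := l) (v := v') (g := g)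
    (s := s) hr ht hl hg ?_ ?_
  · rw [← e2, ← List.append_assoc, ← e1, List.append_assoc]
  · rw [← e4, List.append_assoc, e3]

theorem code_YY (F : Frame X G d) : IsCode (YY X G d) := by
  refine ⟨fun h => h.2.1 rfl, ?_⟩
  have key : ∀ y y' m m' : List α, y ∈ YY X G d → y' ∈ YY X G d → MM X G d m → MM X G d m' →
      y ++ m = y' ++ m' → y.length ≤ y'.length → y = y' := by
    intro y y' m m' hy hy' hm hm' e hlen
    rcases List.append_eq_append_iff.1 e with ⟨k, hk1, hk2⟩ | ⟨k, hk1, hk2⟩
    · -- y' = y ++ k, m = k ++ m'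
      by_cases hk : k = []
      · rw [hk1, hk, List.append_nil]
      · exfalso
        have h1 : MM X G d k := by
          refine F.stab (u := y) (v := m') hy.1 hm' ?_ ?_
          · rw [← hk1]; exact hy'.1
          · rw [← hk2]; exact hm
        exact hy'.2.2 y k hy.1 h1 hy.2.1 hk hk1
    · have := congrArg List.length hk1
      rw [List.length_append] at this
      have hk : k = [] := List.eq_nil_of_length_eq_zero (by omega)
      rw [hk1, hk, List.append_nil]
  intro l
  induction l with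
  | nil =>
    intro l' _ h2 h3
    cases l' with
    | nil => rfl
    | cons b l' =>
      exfalso
      rw [List.flatten_nil, List.flatten_cons] at h3
      exact (h2 b (by simp)).2.1 (List.append_eq_nil_iff.1 h3.symm).1
  | cons a l ih =>
    intro l' h1 h2 h3
    cases l' with
    | nil =>
      exfalso
      rw [List.flatten_nil, List.flatten_cons] at h3
      exact (h1 a (by simp)).2.1 (List.append_eq_nil_iff.1 h3).1
    | cons b l' =>
      rw [List.flatten_cons, List.flatten_cons] at h3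
      have ha := h1 a (by simp)
      have hb := h2 b (by simp)
      have hl : MM X G d l.flatten := F.mm_flatten fun y hy => (h1 y (by simp [hy])).1
      have hl' : MM X G d l'.flatten := F.mm_flatten fun y hy => (h2 y (by simp [hy])).1
      have hab : a = b := by
        rcases le_total a.length b.length with h | h
        · exact key a b _ _ ha hb hl hl' h3 h
        · exact (key b a _ _ hb ha hl' hl h3.symm h).symm
      subst hab
      have h4 := List.append_cancel_left h3
      rw [ih l' (fun y hy => h1 y (by simp [hy])) (fun y hy => h2 y (by simp [hy])) h4]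

theorem ctx (F : Frame X G d) : ∃ e : List α, MM X G d e ∧ ∀ w, MM X G d (e ++ w ++ e) := by
  obtain ⟨x0, hx0⟩ := KL.exists F.pos (d + d)
  obtain ⟨g0, hg0⟩ := F.ne
  refine ⟨g0 ++ x0, Or.inl (star_append (F.sub _ hg0) hx0.star), fun w => Or.inr ⟨?_, ?_⟩⟩
  · exact ⟨g0, x0 ++ (w ++ (g0 ++ x0)), hg0, by simp only [List.append_assoc]⟩
  · exact ⟨g0 ++ (x0 ++ (w ++ g0)), x0, hx0, by simp only [List.append_assoc]⟩

theorem complete_YY (F : Frame X G d) : IsComplete (YY X G d) := by
  obtain ⟨e, _, he⟩ := F.ctx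
  intro w
  exact ⟨e, e, F.star_iff.2 (he w)⟩

theorem maximal_YY (F : Frame X G d) : IsMaximalCode (YY X G d) := by
  refine ⟨F.code_YY, ?_⟩
  intro Z hZ hsub
  obtain ⟨e, he, hewe⟩ := F.ctx
  ext w
  refine ⟨fun hw => ?_, hsub w⟩
  have h1 := F.star_iff.2 he
  have h2 := F.star_iff.2 (hewe w)
  rw [Language.mem_kstar] at h1 h2
  obtain ⟨l1, e1, m1⟩ := h1
  obtain ⟨l2, e2, m2⟩ := h2
  have h3 : (l1 ++ ([w] ++ l1)).flatten = l2.flatten := by
    rw [← e2, List.flatten_append, List.flatten_append, ← e1]; simp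
  have h4 := hZ.2 _ _ (by
    intro y hy
    rcases List.mem_append.1 hy with hy | hy
    · exact hsub _ (m1 y hy)
    · rcases List.mem_append.1 hy with hy | hy
      · rw [List.mem_singleton] at hy
        rw [hy]; exact hw
      · exact hsub _ (m1 y hy)) (fun y hy => hsub _ (m2 y hy)) h3
  apply m2
  rw [← h4]
  simp

/-- products of many words of `YY` end with many words of `X` -/
theorem pow_tl (F : Frame X G d) {w : List α} (hw : w ∈ YY X G d ^ (d + d)) :
    KL X (d + d) w ∨ (Hd G w ∧ Tl X d w) := by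
  rw [Language.mem_pow] at hw
  obtain ⟨l, rfl, hl, hm⟩ := hw
  have h1 : MM X G d l.flatten := F.mm_flatten fun y hy => (hm y hy).1
  rcases h1 with h1 | h1
  · left
    rw [Language.mem_kstar] at h1
    obtain ⟨l', e', m'⟩ := h1
    have := F.code_YY.2 _ _ hm (fun y hy => F.sub_YY (m' y hy)) e'
    rw [this]
    exact ⟨l', rfl, m', by rw [← this]; exact hl.ge⟩
  · right; exact h1

/-- the left half of the synchronization of `YY` -/
theorem sync_left (F : Frame X G d) {u x v : List α} (hx : x ∈ YY X G d ^ (d + d))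
    (h : MM X G d (u ++ (x ++ v))) : MM X G d (u ++ x) := by
  obtain ⟨a, t, ht, rfl⟩ : Tl X d x := by
    rcases F.pow_tl hx with h | h
    · exact ⟨[], x, h, rfl⟩
    · exact h.2
  obtain ⟨t', t'', rfl, ht', ht''⟩ := ht.split
  have key : ∀ v', u ++ (a ++ (t' ++ t'')) ++ v' ∈ X∗ → MM X G d (u ++ (a ++ (t' ++ t''))) := by
    intro v' h
    left
    have h1 : (u ++ a) ++ (t' ++ (t'' ++ v')) ∈ X∗ := by
      simpa only [List.append_assoc] using h
    have h2 := F.sync _ _ _ _ ht' ht'' h1
    have h3 := star_append h2 ht''.star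
    simpa only [List.append_assoc] using h3
  rcases h with h | h
  · apply key v
    rw [List.append_assoc]; exact h
  · obtain ⟨g, s, hg, e⟩ := h.1
    rw [← List.append_assoc] at e
    rcases List.append_eq_append_iff.1 e with ⟨k, hk1, hk2⟩ | ⟨k, hk1, hk2⟩
    · -- g = u a t k
      apply key k
      rw [← hk1]; exact F.sub g hg
    · right
      exact ⟨⟨g, k, hg, hk1⟩, ⟨u ++ a, t' ++ t'', ht, by rw [List.append_assoc]⟩⟩

theorem syncDelay_YY (F : Frame X G d) : SyncDelay (YY X G d) (d + d) := by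
  intro x hx y _ u v h
  rw [F.star_iff] at h ⊢
  apply F.sync_left (v := y ++ v) hx
  simpa only [List.append_assoc] using h

/-- the right half of the synchronization of `YY` in the two-sided case -/
theorem sync_right (F : Frame X G d) (hG : ∀ g, g ∈ G ↔ KL X (d + d) g)
    (hsync : ∀ x y u v, KL X d x → KL X d y → u ++ (x ++ (y ++ v)) ∈ X∗ → y ++ v ∈ X∗)
    {u x v : List α} (hx : x ∈ YY X G d ^ (d + d))
    (h : MM X G d (u ++ (x ++ v))) : MM X G d (x ++ v) := by
  obtain ⟨t, b, ht, rfl⟩ : ∃ t b, KL X (d + d) t ∧ x = t ++ b := by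
    rcases F.pow_tl hx with h | h
    · exact ⟨x, [], h, by rw [List.append_nil]⟩
    · obtain ⟨g, s, hg, e⟩ := h.1
      exact ⟨g, s, (hG g).1 hg, e⟩
  obtain ⟨t', t'', rfl, ht', ht''⟩ := ht.split
  have key : ∀ u', u' ++ (t' ++ t'' ++ b ++ v) ∈ X∗ → MM X G d (t' ++ t'' ++ b ++ v) := by
    intro u' h
    left
    have h1 : u' ++ (t' ++ (t'' ++ (b ++ v))) ∈ X∗ := by
      simpa only [List.append_assoc] using h
    have h2 := hsync _ _ _ _ ht' ht'' h1
    have h3 := star_append ht'.star h2
    simpa only [List.append_assoc] using h3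
  rcases h with h | h
  · exact key u h
  · obtain ⟨a, t, ht2, e⟩ := h.2
    rcases List.append_eq_append_iff.1 e with ⟨k, hk1, hk2⟩ | ⟨k, hk1, hk2⟩
    · -- a = u ++ k, x v = k t
      right
      refine ⟨⟨t' ++ t'', b ++ v, (hG _).2 ht, by simp only [List.append_assoc]⟩,
        ⟨k, t, ht2, hk2⟩⟩
    · -- u = a ++ k, t = k ++ x v
      apply key k
      rw [← hk2]; exact ht2.star

theorem syncDelayTwo_YY (F : Frame X G d) (hG : ∀ g, g ∈ G ↔ KL X (d + d) g)
    (hsync : ∀ x y u v, KL X d x → KL X d y → u ++ (x ++ (y ++ v)) ∈ X∗ → y ++ v ∈ X∗) :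
    SyncDelayTwo (YY X G d) (d + d) := by
  intro x hx y hy u v h
  rw [F.star_iff] at h
  rw [F.star_iff, F.star_iff]
  constructor
  · apply F.sync_left (v := y ++ v) hx
    simpa only [List.append_assoc] using h
  · apply F.sync_right hG hsync (u := u ++ x) hy
    simpa only [List.append_assoc] using h

/-! ### Regularity -/

theorem rfin_top : RFin (⊤ : Language α) :=
  ⟨Unit, inferInstance, fun _ => (), fun _ _ _ _ => Iff.rfl⟩

theorem rfin_pow {L : Language α} (h : RFin L) (n : ℕ) : RFin (L ^ n) := by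
  induction n with
  | zero => rw [pow_zero]; exact RFin.one
  | succ n ih => rw [pow_succ]; exact ih.mul h

theorem mem_top' (w : List α) : w ∈ (⊤ : Language α) := Set.mem_univ w

theorem rfin_of_regular {L : Language α} (h : L.IsRegular) : RFin L := by
  obtain ⟨σ, hσ, M, rfl⟩ := h
  refine ⟨σ, inferInstance, M.eval, ?_⟩
  intro u u' h t
  have key : ∀ v, v ++ t ∈ M.accepts ↔ M.evalFrom (M.eval v) t ∈ M.accept := by
    intro v
    rw [DFA.mem_accepts]
    unfold DFA.eval
    rw [DFA.evalFrom_of_append]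
  rw [key, key, h]

theorem regular_YY (hX : X.IsRegular) (hG : RFin G) : (YY X G d).IsRegular := by
  apply RFin.isRegular
  have rX := rfin_of_regular hX
  set A : Language α := ⊤
  have rA : RFin A := rfin_top
  let M : Language α := X∗ ⊔ ((G * A) ⊓ (A * (X ^ (d + d) * X∗)))
  have hM : ∀ w, w ∈ M ↔ MM X G d w := by
    intro w
    show (w ∈ X∗ ∨ (w ∈ G * A ∧ w ∈ A * (X ^ (d + d) * X∗))) ↔ _
    unfold MM Hd Tl
    refine or_congr Iff.rfl (and_congr ?_ ?_)
    · rw [Language.mem_mul]
      constructor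
      · rintro ⟨a, ha, b, _, e⟩
        exact ⟨a, b, ha, e.symm⟩
      · rintro ⟨a, b, ha, e⟩
        exact ⟨a, ha, b, mem_top' _, e.symm⟩
    · rw [Language.mem_mul]
      constructor
      · rintro ⟨a, _, b, hb, e⟩
        refine ⟨a, b, ?_, e.symm⟩
        rw [Language.mem_mul] at hb
        obtain ⟨p, hp, q, hq, e'⟩ := hb
        rw [KL.iff]
        exact ⟨p, q, hp, hq, e'.symm⟩
      · rintro ⟨a, b, hb, e⟩
        refine ⟨a, mem_top' _, b, ?_, e.symm⟩
        rw [KL.iff] at hb
        obtain ⟨p, q, hp, hq, e'⟩ := hb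
        rw [Language.mem_mul]
        exact ⟨p, hp, q, hq, e'.symm⟩
  have rM : RFin M := rX.star.sup ((hG.mul rA).inf (rA.mul ((rfin_pow rX _).mul rX.star)))
  let P : Language α := M ⊓ (1 : Language α)ᶜ
  have rP : RFin P := rM.inf RFin.one.compl
  have hP : ∀ w, w ∈ P ↔ MM X G d w ∧ w ≠ [] := by
    intro w
    show (w ∈ M ∧ ¬ w ∈ (1 : Language α)) ↔ _
    rw [hM, Language.mem_one]
  have : YY X G d = P ⊓ (P * P)ᶜ := by
    ext w
    show (MM X G d w ∧ w ≠ [] ∧ ∀ u v, MM X G d u → MM X G d v → u ≠ [] → v ≠ [] → w ≠ u ++ v) ↔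
      (w ∈ P ∧ ¬ w ∈ P * P)
    rw [Language.mem_mul, hP]
    constructor
    · rintro ⟨h1, h2, h3⟩
      refine ⟨⟨h1, h2⟩, ?_⟩
      rintro ⟨a, ha, b, hb, e⟩
      rw [hP] at ha hb
      exact h3 a b ha.1 hb.1 ha.2 hb.2 e.symm
    · rintro ⟨⟨h1, h2⟩, h3⟩
      refine ⟨h1, h2, ?_⟩
      intro u v hu hv hu0 hv0 e
      exact h3 ⟨u, (hP u).2 ⟨hu, hu0⟩, v, (hP v).2 ⟨hv, hv0⟩, e.symm⟩
  rw [this]
  exact rP.inf (rP.mul rP).compl

end Frame

end Pool.Agent.K4H93.BSD
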