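import Pool.Agent.K4H93.BSD.Stab

/-! # Existence of frames -/

namespace Pool.Agent.K4H93.BSD

open Pool.Agent.H643R2.BX
open scoped Computability

variable {α : Type} {X : Language α} {d : ℕ}

/-- the one-sided synchronization property for products of at least `d` words -/
def Syn (X : Language α) (d : ℕ) : Prop :=
  ∀ x y u v, KL X d x → KL X d y → u ++ (x ++ (y ++ v)) ∈ X∗ → u ++ x ∈ X∗

theorem syn_of (h : SyncDelay X d) : Syn X (d + 1) := by
  intro x y u v hx hy hw
  obtain ⟨x1, x2, hx1, hx2, rfl⟩ := KL.iff'.1 (hx.mono (Nat.le_succ d))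
  obtain ⟨y1, y2, hy1, hy2, rfl⟩ := KL.iff.1 (hy.mono (Nat.le_succ d))
  have := h x2 hx2 y1 hy1 (u ++ x1) (y2 ++ v) (by simpa only [List.append_assoc] using hw)
  simpa only [List.append_assoc] using this

theorem syn_right_of (h : SyncDelayTwo X d) :
    ∀ x y u v, KL X (d + 1) x → KL X (d + 1) y → u ++ (x ++ (y ++ v)) ∈ X∗ → y ++ v ∈ X∗ := by
  intro x y u v hx hy hw
  obtain ⟨x1, x2, hx1, hx2, rfl⟩ := KL.iff'.1 (hx.mono (Nat.le_succ d))
  obtain ⟨y1, y2, hy1, hy2, rfl⟩ := KL.iff.1 (hy.mono (Nat.le_succ d))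
  have := (h x2 hx2 y1 hy1 (u ++ x1) (y2 ++ v) (by simpa only [List.append_assoc] using hw)).2
  simpa only [List.append_assoc] using this

theorem SyncDelayTwo.one (h : SyncDelayTwo X d) : SyncDelay X d :=
  fun x hx y hy u v hw => (h x hx y hy u v hw).1

/-- cut or cover -/
theorem cut_cover {K : Language α} {s w t : List α} (h : s ++ (w ++ t) ∈ K∗) :
    (∃ w1 w2, w = w1 ++ w2 ∧ s ++ w1 ∈ K∗ ∧ w2 ++ t ∈ K∗) ∨
    (∃ s2 t1, s2 ++ (w ++ t1) ∈ K) := by
  rcases star_split h with ⟨h1, h2⟩ | ⟨u1, u2, a1, a2, e1, e2, e3, e4, e5⟩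
  · exact Or.inl ⟨[], w, rfl, by simpa using h1, h2⟩
  · rcases List.append_eq_append_iff.1 e2 with ⟨c, hc1, hc2⟩ | ⟨c, hc1, hc2⟩
    · -- a1 = w ++ c, t = c ++ a2
      exact Or.inr ⟨u2, c, by rw [← hc1]; exact e4⟩
    · -- w = a1 ++ c, a2 = c ++ t
      refine Or.inl ⟨a1, c, hc1, ?_, by rw [← hc2]; exact e5⟩
      rw [e1, List.append_assoc]
      exact star_append e3 (star_base e4)

/-- each right context is killed by some word of the submonoid -/
theorem kill_one (hX : IsCode X) (hne : ∃ x, x ∈ X) (hd : 0 < d) (hS : Syn X d) (β : List α) :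
    ∃ x ∈ X∗, ∀ a, a ++ (x ++ β) ∉ X := by
  obtain ⟨x, hx⟩ := KL.exists hne (d + d)
  by_cases h : ∃ a, a ++ (x ++ β) ∈ X
  · obtain ⟨a, ha⟩ := h
    obtain ⟨x', x'', rfl, hx', hx''⟩ := hx.split
    have h1 : a ++ x' ∈ X∗ := by
      apply hS x' x'' a β hx' hx''
      rw [← List.append_assoc x' x'' β]
      exact star_base ha
    have h2 : a ++ (x' ++ x'') ∈ X∗ := by
      rw [← List.append_assoc]
      exact star_append h1 hx''.star
    obtain ⟨t, ht⟩ := KL.exists hne (d + d)
    obtain ⟨t', t'', rfl, ht', ht''⟩ := ht.split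
    refine ⟨(t' ++ t'') ++ (a ++ (x' ++ x'')), star_append ht.star h2, ?_⟩
    intro b hb
    have h3 : b ++ (t' ++ (t'' ++ (a ++ (x' ++ x'' ++ β)))) ∈ X∗ := by
      have := star_base hb
      simpa only [List.append_assoc] using this
    have h4 := hS _ _ _ _ ht' ht'' h3
    have h5 : b ++ t' ++ t'' ∈ X∗ := star_append h4 ht''.star
    have h6 : b ++ t' ++ t'' ≠ [] := by
      intro h0
      have h7 := (List.append_eq_nil_iff.1 h0).2
      exact ht''.ne_nil hX.1 hd h7
    have h8 : a ++ (x' ++ x'' ++ β) ≠ [] := by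
      intro h0
      rw [h0] at ha
      exact hX.1 ha
    apply hX.irred h5 (star_base ha) h6 h8
    simpa only [List.append_assoc] using hb
  · exact ⟨x, hx.star, fun a ha => h ⟨a, ha⟩⟩

/-- a word of the submonoid which is not a factor of any word of `X` -/
theorem exists_nonfactor (hreg : X.IsRegular) (hX : IsCode X) (hne : ∃ x, x ∈ X) (hd : 0 < d)
    (hS : Syn X d) : ∃ x ∈ X∗, ∀ a b, a ++ (x ++ b) ∉ X := by
  classical
  obtain ⟨σ, hσ, M, hM⟩ := hreg
  let κ : List α → Set σ := fun β => {q | M.evalFrom q β ∈ M.accept}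
  have hκ : ∀ w β, w ++ β ∈ X ↔ M.eval w ∈ κ β := by
    intro w β
    rw [← hM, DFA.mem_accepts]
    show M.eval (w ++ β) ∈ M.accept ↔ M.evalFrom (M.eval w) β ∈ M.accept
    unfold DFA.eval
    rw [DFA.evalFrom_of_append]
  have hκ2 : ∀ t β β', κ β = κ β' → κ (t ++ β) = κ (t ++ β') := by
    intro t β β' h
    ext q
    show M.evalFrom q (t ++ β) ∈ M.accept ↔ M.evalFrom q (t ++ β') ∈ M.accept
    rw [DFA.evalFrom_of_append, DFA.evalFrom_of_append]
    have : M.evalFrom q t ∈ κ β ↔ M.evalFrom q t ∈ κ β' := by rw [h]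
    exact this
  have key : ∀ S : Finset (Set σ), ∃ t ∈ X∗, ∀ β, κ β ∈ S → ∀ a, a ++ (t ++ β) ∉ X := by
    intro S
    induction S using Finset.induction_on with
    | empty => exact ⟨[], Language.nil_mem_kstar _, fun β h => absurd h (Finset.notMem_empty _)⟩
    | insert k S _ ih =>
      obtain ⟨t, ht, h1⟩ := ih
      by_cases hk : ∃ β0, κ β0 = k
      · obtain ⟨β0, hβ0⟩ := hk
        obtain ⟨x, hx, h2⟩ := kill_one hX hne hd hS (t ++ β0)
        refine ⟨x ++ t, star_append hx ht, ?_⟩
        intro β hβ a ha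
        rcases Finset.mem_insert.1 hβ with h | h
        · apply h2 a
          have e1 : (a ++ x) ++ (t ++ β) ∈ X := by
            simpa only [List.append_assoc] using ha
          rw [hκ, hκ2 t β β0 (h.trans hβ0.symm), ← hκ] at e1
          simpa only [List.append_assoc] using e1
        · apply h1 β h (a ++ x)
          simpa only [List.append_assoc] using ha
      · refine ⟨t, ht, ?_⟩
        intro β hβ a ha
        rcases Finset.mem_insert.1 hβ with h | h
        · exact hk ⟨β, h⟩
        · exact h1 β h a ha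
  obtain ⟨t, ht, h⟩ := key Finset.univ
  exact ⟨t, ht, fun a b => h b (Finset.mem_univ _) a⟩

theorem frame_two (hX : IsCode X) (hne : ∃ x, x ∈ X) (hd : 0 < d) (hS : Syn X d)
    (hS' : ∀ x y u v, KL X d x → KL X d y → u ++ (x ++ (y ++ v)) ∈ X∗ → y ++ v ∈ X∗) :
    Frame X ({w | KL X (d + d) w} : Set (List α)) d where
  code := hX
  sync := hS
  pos := hne
  sub := fun g hg => KL.star hg
  ne := KL.exists hne _
  mul := fun x g hx hg => KL.star_append hx hg
  g1 := by
    intro z l s hl h
    obtain ⟨l', l'', rfl, hl', hl''⟩ := KL.split hl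
    have h1 := hS' l' l'' z s hl' hl'' (by simpa only [List.append_assoc] using h)
    rw [List.append_assoc]
    exact star_append hl'.star h1
  g2 := by
    intro w l s hl h
    obtain ⟨l', l'', rfl, hl', hl''⟩ := KL.split hl
    exact ⟨l', hl', hS l' l'' w s hl' hl'' (by simpa only [List.append_assoc] using h)⟩
  g3 := by
    intro l s hl h
    obtain ⟨l', l'', rfl, hl', hl''⟩ := KL.split hl
    have h1 := hS' l' l'' [] s hl' hl'' (by
      have := star_base h
      simpa only [List.append_assoc, List.nil_append] using this)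
    refine hX.irred hl'.star h1 (hl'.ne_nil hX.1 hd) ?_ (by rwa [List.append_assoc] at h)
    intro h0
    exact hl''.ne_nil hX.1 hd (List.append_eq_nil_iff.1 h0).1

/-- a synchronizing word -/
theorem exists_sync_word (hreg : X.IsRegular) (hX : IsCode X) (hne : ∃ x, x ∈ X) (hd : 0 < d)
    (hS : Syn X d) : ∃ c, KL X d c ∧ (∀ a b, a ++ (c ++ b) ∉ X) ∧
      (∀ u v, u ++ (c ++ (c ++ v)) ∈ X∗ → u ++ c ∈ X∗ ∧ c ++ v ∈ X∗) := by
  obtain ⟨x0, hx0, hnf⟩ := exists_nonfactor hreg hX hne hd hS
  obtain ⟨b0, hb0⟩ := KL.exists hne (d + d)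
  obtain ⟨b', b'', rfl, hb', hb''⟩ := hb0.split
  have hc : KL X (d + d) (x0 ++ (b' ++ b'')) := KL.star_append hx0 hb0
  have hcd : KL X d (x0 ++ (b' ++ b'')) := hc.mono (by omega)
  refine ⟨x0 ++ (b' ++ b''), hcd, ?_, ?_⟩
  · intro a b h
    apply hnf a ((b' ++ b'') ++ b)
    simpa only [List.append_assoc] using h
  · intro u v h
    have h1 : u ++ (x0 ++ (b' ++ b'')) ∈ X∗ := hS _ _ _ _ hcd hcd h
    refine ⟨h1, ?_⟩
    have h2 : (u ++ (x0 ++ (b' ++ b''))) ++ (x0 ++ ((b' ++ b'') ++ v)) ∈ X∗ := by
      simpa only [List.append_assoc] using h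
    rcases cut_cover h2 with ⟨p, q, e, h3, h4⟩ | ⟨s2, t1, h3⟩
    · have h5 : q ++ b' ∈ X∗ := by
        apply hS b' b'' q v hb' hb''
        simpa only [List.append_assoc] using h4
      have h6 : p ∈ X∗ := by
        refine hX.unitary (e := q ++ b') h1 h3 ?_ h5
        rw [← List.append_assoc, ← e]
        exact star_append hx0 hb'.star
      have h7 := star_append h6 h4
      rw [e]
      simpa only [List.append_assoc] using h7
    · exact absurd h3 (hnf _ _)

theorem frame_one (hX : IsCode X) (hne : ∃ x, x ∈ X) (hS : Syn X d) {c : List α}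
    (hc : KL X d c) (h1 : ∀ a b, a ++ (c ++ b) ∉ X)
    (h2 : ∀ u v, u ++ (c ++ (c ++ v)) ∈ X∗ → u ++ c ∈ X∗ ∧ c ++ v ∈ X∗) :
    Frame X (X∗ * ({c ++ c} : Language α)) d where
  code := hX
  sync := hS
  pos := hne
  sub := by
    intro g hg
    rw [Language.mem_mul] at hg
    obtain ⟨a, ha, b, hb, rfl⟩ := hg
    have hb' : b = c ++ c := hb
    rw [hb']
    exact star_append ha (star_append hc.star hc.star)
  ne := ⟨c ++ c, by
    rw [Language.mem_mul]
    exact ⟨[], Language.nil_mem_kstar _, c ++ c, rfl, rfl⟩⟩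
  mul := by
    intro x g hx hg
    rw [Language.mem_mul] at hg ⊢
    obtain ⟨a, ha, b, hb, rfl⟩ := hg
    exact ⟨x ++ a, star_append hx ha, b, hb, by rw [List.append_assoc]⟩
  g1 := by
    intro z l s hl h
    rw [Language.mem_mul] at hl
    obtain ⟨a, ha, b, hb, rfl⟩ := hl
    have hb' : b = c ++ c := hb
    subst hb'
    have h3 := (h2 (z ++ a) s (by simpa only [List.append_assoc] using h)).2
    have h4 := star_append ha (star_append hc.star h3)
    simpa only [List.append_assoc] using h4
  g2 := by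
    intro w l s hl h
    rw [Language.mem_mul] at hl
    obtain ⟨a, ha, b, hb, rfl⟩ := hl
    have hb' : b = c ++ c := hb
    subst hb'
    have h3 := (h2 (w ++ a) s (by simpa only [List.append_assoc] using h)).1
    exact ⟨a ++ c, KL.star_append ha hc, by simpa only [List.append_assoc] using h3⟩
  g3 := by
    intro l s hl h
    rw [Language.mem_mul] at hl
    obtain ⟨a, ha, b, hb, rfl⟩ := hl
    have hb' : b = c ++ c := hb
    subst hb'
    apply h1 a (c ++ s)
    simpa only [List.append_assoc] using h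

theorem rfin_word (c : List α) : RFin ({c} : Language α) := by
  induction c with
  | nil =>
    have : ({[]} : Language α) = 1 := rfl
    rw [this]; exact RFin.one
  | cons a c ih =>
    have : ({a :: c} : Language α) = ({[a]} : Language α) * ({c} : Language α) := by
      ext w
      rw [Language.mem_mul]
      constructor
      · intro h
        have h' : w = a :: c := h
        exact ⟨[a], rfl, c, rfl, h'.symm⟩
      · rintro ⟨x, hx, y, hy, e⟩
        have hx' : x = [a] := hx
        have hy' : y = c := hy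
        subst hx' hy'
        exact e.symm
    rw [this]
    exact (RFin.char a).mul ih

/-- the case of the empty code: the alphabet is a code with all the properties -/
theorem letters : ∃ Y : Language α, Y.IsRegular ∧ IsMaximalCode Y ∧ IsComplete Y ∧
    SyncDelayTwo Y 0 := by
  let Y : Language α := ({w | w.length = 1} : Set (List α))
  have hY : ∀ w, w ∈ Y ↔ w.length = 1 := fun w => Iff.rfl
  have hall : ∀ w, w ∈ Y∗ := by
    intro w
    induction w with
    | nil => exact Language.nil_mem_kstar _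
    | cons a w ih =>
      have : a :: w = [a] ++ w := rfl
      rw [this]
      exact star_append (star_base ((hY _).2 rfl)) ih
  have hcode : IsCode Y := by
    refine ⟨fun h => by have := (hY _).1 h; simp at this, ?_⟩
    intro l
    induction l with
    | nil =>
      intro l' _ h2 h3
      cases l' with
      | nil => rfl
      | cons b l' =>
        exfalso
        have := (hY _).1 (h2 b (by simp))
        rw [List.flatten_nil, List.flatten_cons] at h3
        rw [(List.append_eq_nil_iff.1 h3.symm).1] at this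
        simp at this
    | cons a l ih =>
      intro l' h1 h2 h3
      have ha := (hY _).1 (h1 a (by simp))
      cases l' with
      | nil =>
        exfalso
        rw [List.flatten_nil, List.flatten_cons] at h3
        rw [(List.append_eq_nil_iff.1 h3).1] at ha
        simp at ha
      | cons b l' =>
        rw [List.flatten_cons, List.flatten_cons] at h3
        have hb := (hY _).1 (h2 b (by simp))
        obtain ⟨e1, e2⟩ := List.append_inj h3 (ha.trans hb.symm)
        rw [e1, ih l' (fun y hy => h1 y (by simp [hy])) (fun y hy => h2 y (by simp [hy])) e2]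
  refine ⟨Y, ?_, ⟨hcode, ?_⟩, ?_, ?_⟩
  · apply RFin.isRegular
    refine ⟨Fin 3, inferInstance, fun u => if u.length = 0 then 0 else if u.length = 1 then 1 else 2,
      ?_⟩
    intro u u' h t
    rw [hY, hY, List.length_append, List.length_append]
    by_cases h0 : u.length = 0
    · by_cases h0' : u'.length = 0
      · rw [h0, h0']
      · by_cases h1' : u'.length = 1
        · simp [h0, h1'] at h
        · simp [h0, h0', h1'] at h
    · by_cases h1 : u.length = 1
      · by_cases h0' : u'.length = 0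
        · simp [h1, h0'] at h
        · by_cases h1' : u'.length = 1
          · rw [h1, h1']
          · simp [h1, h0', h1'] at h
      · by_cases h0' : u'.length = 0
        · simp [h0, h1, h0'] at h
        · by_cases h1' : u'.length = 1
          · simp [h0, h1, h1'] at h
          · omega
  · intro Z hZ hsub
    ext w
    refine ⟨fun hw => ?_, hsub w⟩
    have h1 := hall w
    rw [Language.mem_kstar] at h1
    obtain ⟨l, e, m⟩ := h1
    have h2 := hZ.2 [w] l (by simpa using hw) (fun y hy => hsub _ (m y hy)) (by simpa using e)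
    apply m
    rw [← h2]
    simp
  · intro w
    exact ⟨[], [], hall _⟩
  · intro x _ y _ u v _
    exact ⟨hall _, hall _⟩

theorem SyncDelay.of_syn {n : ℕ} (h : Syn X n) : SyncDelay X n := by
  intro x hx y hy u v hw
  exact h x y u v (mem_pow_KL hx) (mem_pow_KL hy) (by simpa only [List.append_assoc] using hw)

theorem Syn.mono {m n : ℕ} (h : Syn X m) (hmn : m ≤ n) : Syn X n :=
  fun x y u v hx hy hw => h x y u v (hx.mono hmn) (hy.mono hmn) hw

theorem SyncDelayTwo.mono {m n : ℕ} (h : SyncDelayTwo X m) (hmn : m < n) : SyncDelayTwo X n := by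
  have h1 := syn_of h.one
  have h2 := syn_right_of h
  intro x hx y hy u v hw
  have hw' : u ++ (x ++ (y ++ v)) ∈ X∗ := by simpa only [List.append_assoc] using hw
  exact ⟨h1 x y u v ((mem_pow_KL hx).mono hmn) ((mem_pow_KL hy).mono hmn) hw',
    h2 x y u v ((mem_pow_KL hx).mono hmn) ((mem_pow_KL hy).mono hmn) hw'⟩

theorem main_one (hreg : X.IsRegular) (hX : IsCode X) (hd : SyncDelay X d) :
    ∃ Y : Language α, (∀ w, w ∈ X → w ∈ Y) ∧ Y.IsRegular ∧ IsMaximalCode Y ∧ IsComplete Y ∧
      SyncDelay Y (2 * d + 2) := by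
  have e2 : 2 * d + 2 = (d + 1) + (d + 1) := by ring
  by_cases hne : ∃ x, x ∈ X
  · have hS := syn_of hd
    obtain ⟨c, hc, h1, h2⟩ := exists_sync_word hreg hX hne (Nat.succ_pos d) hS
    have F := frame_one hX hne hS hc h1 h2
    rw [e2]
    exact ⟨_, fun w hw => F.sub_YY hw,
      Frame.regular_YY hreg ((Frame.rfin_of_regular hreg).star.mul (rfin_word _)),
      F.maximal_YY, F.complete_YY, F.syncDelay_YY⟩
  · obtain ⟨Y, h1, h2, h3, h4⟩ := letters (α := α)
    exact ⟨Y, fun w hw => absurd ⟨w, hw⟩ hne, h1, h2, h3, (h4.mono (by omega)).one⟩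

theorem main_two (hreg : X.IsRegular) (hX : IsCode X) (hd : SyncDelayTwo X d) :
    ∃ Y : Language α, (∀ w, w ∈ X → w ∈ Y) ∧ Y.IsRegular ∧ IsMaximalCode Y ∧ IsComplete Y ∧
      SyncDelayTwo Y (2 * d + 2) := by
  have e2 : 2 * d + 2 = (d + 1) + (d + 1) := by ring
  by_cases hne : ∃ x, x ∈ X
  · have hS := syn_of hd.one
    have hS' := syn_right_of hd
    have F := frame_two hX hne (Nat.succ_pos d) hS hS'
    rw [e2]
    refine ⟨_, fun w hw => F.sub_YY hw, Frame.regular_YY hreg ?_,
      F.maximal_YY, F.complete_YY, F.syncDelayTwo_YY (fun g => Iff.rfl) hS'⟩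
    have rX := Frame.rfin_of_regular hreg
    have h1 := (Frame.rfin_pow rX ((d + 1) + (d + 1))).mul rX.star
    have h2 : ({w | KL X (d + 1 + (d + 1)) w} : Set (List α)) =
        (X ^ ((d + 1) + (d + 1)) * X∗ : Language α) := by
      ext w
      show KL X (d + 1 + (d + 1)) w ↔ w ∈ (X ^ ((d + 1) + (d + 1)) * X∗ : Language α)
      rw [KL.iff, Language.mem_mul]
      constructor
      · rintro ⟨a, b, ha, hb, e⟩
        exact ⟨a, ha, b, hb, e.symm⟩
      · rintro ⟨a, ha, b, hb, e⟩
        exact ⟨a, b, ha, hb, e.symm⟩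
    show RFin (({w | KL X (d + 1 + (d + 1)) w} : Set (List α)) : Language α)
    rw [show (({w | KL X (d + 1 + (d + 1)) w} : Set (List α)) : Language α) =
      (X ^ ((d + 1) + (d + 1)) * X∗ : Language α) from h2]
    exact h1
  · obtain ⟨Y, h1, h2, h3, h4⟩ := letters (α := α)
    exact ⟨Y, fun w hw => absurd ⟨w, hw⟩ hne, h1, h2, h3, h4.mono (by omega)⟩

end Pool.Agent.K4H93.BSD
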